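import Mathlib

/-!
# The parity index sequences of a meta-Fibonacci sequence are 2-regular

For `h(n) = h(n - h(n-1)) + h(n-2)` (with `h(n) = 1` for `n ≤ 1`) both the increasing enumeration
of the indices with `h` even and that of the indices with `h` odd are `2`-regular.
-/

namespace Pool.Agent.Results.MP_f90694_nt.IndexSequencesRegular

/-- The defining conditions of `h : ℤ → ℤ`: `h(n) = 1` for `n ≤ 0`, `h(1) = 1` and
`h(n) = h(n - h(n-1)) + h(n-2)` for `n > 1`. -/
structure IsH (h : ℤ → ℤ) : Prop where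
  nonpos : ∀ n : ℤ, n ≤ 0 → h n = 1
  one : h 1 = 1
  step : ∀ n : ℤ, 1 < n → h n = h (n - h (n - 1)) + h (n - 2)

/-- The `k`-kernel of an integer sequence. -/
def kernel (k : ℕ) (a : ℕ → ℤ) : Set (ℕ → ℤ) :=
  {b | ∃ j c : ℕ, c < k ^ j ∧ b = fun n => a (k ^ j * n + c)}

/-- `a` is `k`-regular: the `ℤ`-module generated by its `k`-kernel is finitely generated. -/
def IsRegular (k : ℕ) (a : ℕ → ℤ) : Prop := (Submodule.span ℤ (kernel k a)).FG

/-! ### The explicit form of `h` -/

/-- The values of `h` at natural numbers. -/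
def H : ℕ → ℕ
  | 0 => 1
  | 1 => 1
  | n + 2 => if n % 2 = 1 then n / 2 + 2 else H n + H (n / 2 + 1)
decreasing_by all_goals omega

lemma H_zero : H 0 = 1 := by rw [H]
lemma H_one : H 1 = 1 := by rw [H]

lemma H_odd (n : ℕ) : H (2 * n + 1) = n + 1 := by
  cases n with
  | zero => rw [mul_zero, zero_add, H_one]
  | succ n =>
    rw [show 2 * (n + 1) + 1 = (2 * n + 1) + 2 by ring, H, if_pos (by omega)]
    omega

lemma H_even (n : ℕ) : H (2 * n + 2) = H (2 * n) + H (n + 1) := by
  rw [H, if_neg (by omega)]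
  congr 2
  omega

lemma H_pos (n : ℕ) : 1 ≤ H n := by
  induction n using Nat.strong_induction_on with
  | _ n ih =>
    match n with
    | 0 => rw [H_zero]
    | 1 => rw [H_one]
    | n + 2 =>
      rw [H]
      split_ifs
      · omega
      · have := ih n (by omega)
        omega

lemma H_two_le (n : ℕ) (hn : 2 ≤ n) : 2 ≤ H n := by
  obtain ⟨m, rfl⟩ : ∃ m, n = m + 2 := ⟨n - 2, by omega⟩
  rw [H]
  split_ifs
  · omega
  · have h1 := H_pos m
    have h2 := H_pos (m / 2 + 1)
    omega

lemma H_even_ge (n : ℕ) : 2 * n ≤ H (2 * n) := by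
  induction n with
  | zero => simp
  | succ n ih =>
    rw [show 2 * (n + 1) = 2 * n + 2 by ring, H_even]
    rcases Nat.eq_zero_or_pos n with h | h
    · subst h
      simp [H_zero, H_one]
    · have := H_two_le (n + 1) (by omega)
      omega

/-- The integer version of `H`. -/
def HZ (n : ℤ) : ℤ := H n.toNat

lemma HZ_isH : IsH HZ := by
  refine ⟨?_, ?_, ?_⟩
  · intro n hn
    unfold HZ
    rw [Int.toNat_of_nonpos hn, H_zero]; rfl
  · unfold HZ
    rw [show (1 : ℤ).toNat = 1 from rfl, H_one]; rfl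
  · intro n hn
    obtain ⟨m, rfl⟩ : ∃ m : ℕ, n = m + 2 := ⟨(n - 2).toNat, by omega⟩
    unfold HZ
    rw [show ((m : ℤ) + 2).toNat = m + 2 by omega, show ((m : ℤ) + 2 - 1).toNat = m + 1 by omega,
      show ((m : ℤ) + 2 - 2).toNat = m by omega]
    rcases Nat.even_or_odd' m with ⟨l, rfl | rfl⟩
    · -- even
      rw [H_even, H_odd, show (((2 * l : ℕ) : ℤ) + 2 - ((l + 1 : ℕ) : ℤ)).toNat = l + 1 by omega]
      push_cast; ring
    · rw [show 2 * l + 1 + 2 = 2 * (l + 1) + 1 by ring, H_odd,
        show 2 * l + 1 + 1 = 2 * (l + 1) by ring, H_odd]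
      have h1 := H_even_ge (l + 1)
      have h2 : ((((2 * l + 1 : ℕ) : ℤ) + 2 - (H (2 * (l + 1)) : ℤ)).toNat) = 0 ∨
          ((((2 * l + 1 : ℕ) : ℤ) + 2 - (H (2 * (l + 1)) : ℤ)).toNat) = 1 := by
        omega
      rcases h2 with h2 | h2 <;> rw [h2]
      · rw [H_zero]; push_cast; ring
      · rw [H_one]; push_cast; ring

lemma unique_h {h h' : ℤ → ℤ} (hh : IsH h) (hh' : IsH h') (hpos : ∀ n, 0 < h' n) : h = h' := by
  have key : ∀ m : ℕ, ∀ n : ℤ, n ≤ m → h n = h' n := by
    intro m
    induction m with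
    | zero =>
      intro n hn
      rw [hh.nonpos n (by simpa using hn), hh'.nonpos n (by simpa using hn)]
    | succ m ih =>
      intro n hn
      rcases lt_or_ge 1 n with h1 | h1
      · rw [hh.step n h1, hh'.step n h1]
        have e1 := ih (n - 1) (by push_cast at hn; omega)
        have e2 := ih (n - 2) (by push_cast at hn; omega)
        have e3 := hpos (n - 1)
        have e4 := ih (n - h (n - 1)) (by push_cast at hn; rw [e1]; omega)
        rw [e4, e2, e1]
      · rcases h1.lt_or_eq with h2 | h2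
        · rw [hh.nonpos n (by omega), hh'.nonpos n (by omega)]
        · rw [h2, hh.one, hh'.one]
  funext n
  exact key n.toNat n (Int.self_le_toNat n)

lemma HZ_pos (n : ℤ) : 0 < HZ n := by
  unfold HZ
  have := H_pos n.toNat
  omega

/-! ### Parities -/

/-- The parity of the triangular number `n(n+1)/2`. -/
def tb (n : ℕ) : ℕ := if n % 4 = 1 ∨ n % 4 = 2 then 1 else 0

/-- A paperfolding type sequence, the parity of `∑_{j ≤ n} h(2j)`. -/
def G (n : ℕ) : ℕ := if n = 0 then 1 else if n % 2 = 0 then G (n / 2) else tb (n / 2 + 1)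
decreasing_by omega

lemma G_even (n : ℕ) : G (2 * n) = G n := by
  rcases Nat.eq_zero_or_pos n with h | h
  · subst h; rfl
  · rw [G, if_neg (by omega), if_pos (by omega)]
    congr 1
    omega

lemma G_odd (n : ℕ) : G (2 * n + 1) = tb (n + 1) := by
  rw [G, if_neg (by omega), if_neg (by omega)]
  congr 2
  omega

lemma tb_lt (n : ℕ) : tb n < 2 := by unfold tb; split_ifs <;> omega

lemma G_lt (n : ℕ) : G n < 2 := by
  induction n using Nat.strong_induction_on with
  | _ n ih =>
    rw [G]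
    split_ifs with h1 h2
    · omega
    · exact ih _ (by omega)
    · exact tb_lt _

lemma G_zero : G 0 = 1 := by rw [G]; rfl

lemma tb_succ (n : ℕ) : tb (n + 1) % 2 = (tb n + (n + 1)) % 2 := by
  unfold tb
  split_ifs <;> omega

lemma H_parity (n : ℕ) : H (4 * n) % 2 = (tb n + G n) % 2 := by
  induction n using Nat.strong_induction_on with
  | _ n ih =>
    match n with
    | 0 => rw [mul_zero, H_zero, G_zero]; rfl
    | n + 1 =>
      have e1 : H (4 * (n + 1)) = H (4 * n) + (2 * n + 1 + 0 - n) + H (2 * n + 2) := by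
        rw [show 4 * (n + 1) = 2 * (2 * n + 1) + 2 by ring, H_even,
          show 2 * (2 * n + 1) = 2 * (2 * n) + 2 by ring, H_even, H_odd,
          show 2 * (2 * n) = 4 * n by ring, show 2 * n + 1 + 1 = 2 * n + 2 by ring]
        omega
      have e2 := ih n (by omega)
      have e3 := tb_succ n
      have e4 : H (2 * n + 2) % 2 = (G (n + 1) + G n) % 2 := by
        rcases Nat.even_or_odd' n with ⟨l, rfl | rfl⟩
        · -- n + 1 = 2 l + 1
          have i1 := ih l (by omega)
          have i2 := tb_succ l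
          rw [G_odd, G_even, H_even, show 2 * (2 * l) = 4 * l by ring, H_odd]
          omega
        · have i1 := ih (l + 1) (by omega)
          rw [show 2 * l + 1 + 1 = 2 * (l + 1) by ring, G_even, G_odd,
            show 2 * (2 * l + 1) + 2 = 4 * (l + 1) by ring]
          omega
      rw [e1]
      omega

lemma H_parity_two (n : ℕ) : H (4 * n + 2) % 2 = (tb (n + 1) + G n) % 2 := by
  have e1 := H_parity n
  have e2 := tb_succ n
  rw [show 4 * n + 2 = 2 * (2 * n) + 2 by ring, H_even, H_odd, show 2 * (2 * n) = 4 * n by ring]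
  omega

/-- The value of `G` at `8t + q` in terms of `g = G t`, `a = t mod 4`. -/
def Gv (g a q : ℕ) : ℕ :=
  if q = 0 then g else if q = 1 then 1 else if q = 2 then tb (2 * a + 1) else if q = 3 then 1
  else if q = 4 then tb (a + 1) else if q = 5 then 0 else if q = 6 then tb (2 * a + 2) else 0

lemma tb_congr {a b : ℕ} (h : a % 4 = b % 4) : tb a = tb b := by unfold tb; rw [h]

lemma G_block (t q : ℕ) (hq : q < 8) : G (8 * t + q) = Gv (G t) (t % 4) q := by
  interval_cases q
  · rw [show 8 * t + 0 = 2 * (2 * (2 * t)) by ring, G_even, G_even, G_even]; rfl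
  · rw [show 8 * t + 1 = 2 * (4 * t) + 1 by ring, G_odd]
    simp only [Gv]
    rw [tb_congr (show (4 * t + 1) % 4 = 1 % 4 by omega)]
    rfl
  · rw [show 8 * t + 2 = 2 * (2 * (2 * t) + 1) by ring, G_even, G_odd]
    simp only [Gv]
    exact tb_congr (by omega)
  · rw [show 8 * t + 3 = 2 * (4 * t + 1) + 1 by ring, G_odd]
    simp only [Gv]
    rw [tb_congr (show (4 * t + 1 + 1) % 4 = 2 % 4 by omega)]
    rfl
  · rw [show 8 * t + 4 = 2 * (2 * (2 * t + 1)) by ring, G_even, G_even, G_odd]
    simp only [Gv]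
    exact tb_congr (by omega)
  · rw [show 8 * t + 5 = 2 * (4 * t + 2) + 1 by ring, G_odd]
    simp only [Gv]
    rw [tb_congr (show (4 * t + 2 + 1) % 4 = 3 % 4 by omega)]
    rfl
  · rw [show 8 * t + 6 = 2 * (2 * (2 * t + 1) + 1) by ring, G_even, G_odd]
    simp only [Gv]
    exact tb_congr (by omega)
  · rw [show 8 * t + 7 = 2 * (4 * t + 3) + 1 by ring, G_odd]
    simp only [Gv]
    rw [tb_congr (show (4 * t + 3 + 1) % 4 = 0 % 4 by omega)]
    rfl

/-- The parity of `h(32 t + s)` in terms of `g = G t`, `a = t mod 4`. -/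
def W (g a s : ℕ) : ℕ :=
  if s % 4 = 0 then (tb (s / 4) + Gv g a (s / 4)) % 2 else if s % 4 = 1 then 1
  else if s % 4 = 2 then (tb (s / 4 + 1) + Gv g a (s / 4)) % 2 else 0

lemma H_block (t s : ℕ) (hs : s < 32) : H (32 * t + s) % 2 = W (G t) (t % 4) s := by
  have hq : s / 4 < 8 := by omega
  have hG := G_block t (s / 4) hq
  have hs4 : s % 4 < 4 := Nat.mod_lt _ (by norm_num)
  have hdecomp : s = 4 * (s / 4) + s % 4 := (Nat.div_add_mod s 4).symm
  unfold W
  generalize s / 4 = q at *
  generalize s % 4 = v at *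
  subst hdecomp
  have h1 : tb (8 * t + q) = tb q := tb_congr (by omega)
  have h2 : tb (8 * t + q + 1) = tb (q + 1) := tb_congr (by omega)
  interval_cases v
  · rw [if_pos rfl, show 32 * t + (4 * q + 0) = 4 * (8 * t + q) by ring, H_parity, hG, h1]
  · rw [if_neg (by norm_num), if_pos rfl,
      show 32 * t + (4 * q + 1) = 2 * (2 * (8 * t + q)) + 1 by ring, H_odd]
    omega
  · rw [if_neg (by norm_num), if_neg (by norm_num), if_pos rfl,
      show 32 * t + (4 * q + 2) = 4 * (8 * t + q) + 2 by ring, H_parity_two, hG, h2]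
  · rw [if_neg (by norm_num), if_neg (by norm_num), if_neg (by norm_num),
      show 32 * t + (4 * q + 3) = 2 * (2 * (8 * t + q) + 1) + 1 by ring, H_odd]
    omega

/-! ### Selecting positions in a block -/

/-- The `c`-th position in a block carrying the parity `i`. -/
def sel (i g a c : ℕ) : ℕ := ((List.range 32).filter (fun s => W g a s = i)).getD c 0

lemma sel_spec : ∀ i < 2, ∀ g < 2, ∀ a < 4, ∀ c < 16,
    sel i g a c < 32 ∧ W g a (sel i g a c) = i ∧
      Nat.count (fun s => W g a s = i) (sel i g a c) = c := by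
  decide +kernel

lemma block_count : ∀ i < 2, ∀ g < 2, ∀ a < 4, Nat.count (fun s => W g a s = i) 32 = 16 := by
  decide +kernel

lemma count_congr {p q : ℕ → Prop} [DecidablePred p] [DecidablePred q] {n : ℕ}
    (h : ∀ m < n, (p m ↔ q m)) : Nat.count p n = Nat.count q n := by
  induction n with
  | zero => simp
  | succ n ih =>
    rw [Nat.count_succ, Nat.count_succ, ih (fun m hm => h m (by omega))]
    congr 1
    have := h n (by omega)
    by_cases hp : p n
    · rw [if_pos hp, if_pos (this.1 hp)]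
    · rw [if_neg hp, if_neg (fun hq => hp (this.2 hq))]

lemma count_block (i t : ℕ) (hi : i < 2) : Nat.count (fun m => H m % 2 = i) (32 * t) = 16 * t := by
  induction t with
  | zero => simp
  | succ t ih =>
    rw [show 32 * (t + 1) = 32 * t + 32 by ring, Nat.count_add, ih]
    have : Nat.count (fun k => H (32 * t + k) % 2 = i) 32
        = Nat.count (fun s => W (G t) (t % 4) s = i) 32 := by
      apply count_congr
      intro m hm
      rw [H_block t m hm]
    rw [this, block_count i hi (G t) (G_lt t) (t % 4) (Nat.mod_lt _ (by norm_num))]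
    ring

/-- The index sequence. -/
def u (i n : ℕ) : ℕ := 32 * (n / 16) + sel i (G (n / 16)) (n / 16 % 4) (n % 16)

lemma u_spec (i n : ℕ) (hi : i < 2) :
    H (u i n) % 2 = i ∧ Nat.count (fun m => H m % 2 = i) (u i n) = n := by
  obtain ⟨h1, h2, h3⟩ := sel_spec i hi (G (n / 16)) (G_lt _) (n / 16 % 4)
    (Nat.mod_lt _ (by norm_num)) (n % 16) (Nat.mod_lt _ (by norm_num))
  unfold u
  constructor
  · rw [H_block _ _ h1, h2]
  · rw [Nat.count_add, count_block i _ hi]
    have : Nat.count (fun k => H (32 * (n / 16) + k) % 2 = i)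
          (sel i (G (n / 16)) (n / 16 % 4) (n % 16))
        = Nat.count (fun s => W (G (n / 16)) (n / 16 % 4) s = i)
          (sel i (G (n / 16)) (n / 16 % 4) (n % 16)) := by
      apply count_congr
      intro m hm
      rw [H_block _ m (by omega)]
    rw [this, h3]
    omega

lemma u_strictMono (i : ℕ) (hi : i < 2) : StrictMono (u i) := by
  intro a b hab
  by_contra hcon
  push Not at hcon
  have h1 := (u_spec i a hi).2
  have h2 := (u_spec i b hi).2
  have h3 := Nat.count_monotone (fun m => H m % 2 = i) hcon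
  omega

lemma u_range (i : ℕ) (hi : i < 2) : Set.range (u i) = {m : ℕ | H m % 2 = i} := by
  ext m
  simp only [Set.mem_range, Set.mem_ofPred_eq]
  constructor
  · rintro ⟨n, rfl⟩
    exact (u_spec i n hi).1
  · intro hm
    refine ⟨Nat.count (fun m => H m % 2 = i) m, ?_⟩
    have h := u_spec i (Nat.count (fun m => H m % 2 = i) m) hi
    exact Nat.count_injective h.1 hm h.2

/-! ### Regularity -/

lemma G_decim (e : ℕ) : ∀ c, c < 2 ^ e → ∃ θ : ℕ → ℕ → ℕ, ∀ n, G (2 ^ e * n + c) = θ (G n) (n % 4) := by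
  induction e with
  | zero =>
    intro c hc
    refine ⟨fun g _ => g, fun n => ?_⟩
    have : c = 0 := by simpa using hc
    subst this
    simp
  | succ e ih =>
    intro c hc
    rcases Nat.even_or_odd' c with ⟨c₁, rfl | rfl⟩
    · obtain ⟨θ, hθ⟩ := ih c₁ (by rw [pow_succ] at hc; omega)
      refine ⟨θ, fun n => ?_⟩
      rw [← hθ n, show 2 ^ (e + 1) * n + 2 * c₁ = 2 * (2 ^ e * n + c₁) by rw [pow_succ]; ring,
        G_even]
    · refine ⟨fun _ a => tb (2 ^ e * a + c₁ + 1), fun n => ?_⟩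
      rw [show 2 ^ (e + 1) * n + (2 * c₁ + 1) = 2 * (2 ^ e * n + c₁) + 1 by rw [pow_succ]; ring,
        G_odd]
      apply tb_congr
      simp [Nat.add_mod, Nat.mul_mod]

/-- The linear map parametrising the sequences `a n + Ψ(G n, n mod 4)`. -/
def L : (ℤ × (Fin 2 → Fin 4 → ℤ)) →ₗ[ℤ] (ℕ → ℤ) where
  toFun x n := x.1 * n + x.2 ⟨G n, G_lt n⟩ ⟨n % 4, Nat.mod_lt _ (by norm_num)⟩
  map_add' x y := by
    funext n
    simp only [Prod.fst_add, Prod.snd_add, Pi.add_apply]
    ring
  map_smul' r x := by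
    funext n
    simp only [Prod.smul_fst, Prod.smul_snd, Pi.smul_apply, smul_eq_mul, RingHom.id_apply]
    ring

/-- Finitely many kernel sequences of low level. -/
def lowSet (i : ℕ) : Set (ℕ → ℤ) :=
  (fun jc : ℕ × ℕ => (fun n : ℕ => (u i (2 ^ jc.1 * n + jc.2) : ℤ))) ''
    ((Finset.range 4 ×ˢ Finset.range 16 : Finset (ℕ × ℕ)) : Set (ℕ × ℕ))

lemma kernel_subset (i : ℕ) :
    kernel 2 (fun n => (u i n : ℤ)) ⊆
      ((LinearMap.range L ⊔ Submodule.span ℤ (lowSet i) : Submodule ℤ (ℕ → ℤ)) :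
        Set (ℕ → ℤ)) := by
  rintro b ⟨j, c, hc, rfl⟩
  rcases lt_or_ge j 4 with hj | hj
  · apply Submodule.mem_sup_right
    apply Submodule.subset_span
    refine ⟨(j, c), ?_, rfl⟩
    rw [Finset.mem_coe, Finset.mem_product]
    refine ⟨Finset.mem_range.2 hj, Finset.mem_range.2 ?_⟩
    have : 2 ^ j ≤ 2 ^ 4 := Nat.pow_le_pow_right (by norm_num) hj.le
    simp only
    omega
  · apply Submodule.mem_sup_left
    obtain ⟨e, rfl⟩ : ∃ e, j = e + 4 := ⟨j - 4, by omega⟩
    have hce : c / 16 < 2 ^ e := by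
      rw [pow_add] at hc
      omega
    obtain ⟨θ, hθ⟩ := G_decim e (c / 16) hce
    refine ⟨((2 ^ (e + 5) : ℤ), fun g a => 32 * ((c / 16 : ℕ) : ℤ)
      + sel i (θ g a) ((2 ^ e * a + c / 16) % 4) (c % 16)), ?_⟩
    funext n
    have hdiv : (2 ^ (e + 4) * n + c) / 16 = 2 ^ e * n + c / 16 := by
      rw [pow_add, show 2 ^ e * 2 ^ 4 * n = 16 * (2 ^ e * n) by ring]
      omega
    have hmod : (2 ^ (e + 4) * n + c) % 16 = c % 16 := by
      rw [pow_add, show 2 ^ e * 2 ^ 4 * n = 16 * (2 ^ e * n) by ring]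
      omega
    have hmod4 : (2 ^ e * n + c / 16) % 4 = (2 ^ e * (n % 4) + c / 16) % 4 := by
      simp [Nat.add_mod, Nat.mul_mod]
    simp only [L, LinearMap.coe_mk, AddHom.coe_mk]
    unfold u
    rw [hdiv, hmod, hθ n, hmod4]
    push_cast
    ring

lemma u_regular (i : ℕ) : IsRegular 2 (fun n => (u i n : ℤ)) := by
  unfold IsRegular
  have hfg : (LinearMap.range L ⊔ Submodule.span ℤ (lowSet i) : Submodule ℤ (ℕ → ℤ)).FG := by
    apply Submodule.FG.sup
    · rw [LinearMap.range_eq_map]
      exact Submodule.FG.map _ Module.Finite.fg_top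
    · exact Submodule.fg_span ((Finset.finite_toSet _).image _)
  exact Submodule.FG.of_le hfg (Submodule.span_le.2 (kernel_subset i))

/-- **The parity index sequences are `2`-regular.** There is exactly one function `h : ℤ → ℤ` with
the defining conditions, and for it and each `i ∈ {0, 1}` the strictly increasing enumeration
`u` of `{m ∈ ℕ : h(m) mod 2 = i}` exists and is a `2`-regular sequence. -/
theorem result : (∃! h : ℤ → ℤ, IsH h) ∧
    ∀ h : ℤ → ℤ, IsH h → ∀ i : ℤ, i = 0 ∨ i = 1 →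
      ∃ u : ℕ → ℕ, StrictMono u ∧ Set.range u = {m : ℕ | h m % 2 = i} ∧
        IsRegular 2 (fun n => (u n : ℤ)) := by
  refine ⟨⟨HZ, HZ_isH, fun h hh => unique_h hh HZ_isH HZ_pos⟩, ?_⟩
  intro h hh i hi
  rw [unique_h hh HZ_isH HZ_pos]
  obtain ⟨j, hj, rfl⟩ : ∃ j : ℕ, j < 2 ∧ i = j := by
    rcases hi with rfl | rfl
    · exact ⟨0, by norm_num, rfl⟩
    · exact ⟨1, by norm_num, rfl⟩
  refine ⟨u j, u_strictMono j hj, ?_, u_regular j⟩
  rw [u_range j hj]
  ext m
  simp only [Set.mem_ofPred_eq, HZ, Int.toNat_natCast]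
  omega

end Pool.Agent.Results.MP_f90694_nt.IndexSequencesRegular
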